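import Pool.Agent.Run7.h536.CE9

set_option autoImplicit false

/-!
# Primes `m² + b m - c` with `m` in ALL residue classes to almost all moduli up to `N ^ (1 - ε)`

Let `q` run through an arbitrary set of moduli up to `Q`, of relative density at least a power of `1 / log X` (for
example the primes), where `Q` and `X` are of polynomially comparable size. Consider the `X` integers `m = q n + a`,
`1 ≤ n ≤ X`, of a residue class modulo `q`; these are of size `N = Q X`, so that the modulus may be as large as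
`N ^ (1 - ε)` and the number of the `m` as small as `N ^ ε`. For almost all the moduli `q`, UNIFORMLY in ALL the residue
classes (more precisely, all starting points `|a| ≤ B N`) and ALL middle coefficients `|b| ≤ B N`, and for almost all
`|c| ≤ B N²`, the number of the `n ≤ M` for which `m² + b m - c` is a prime is given by the asymptotic formula of Hardy and
Littlewood, for all `M ≤ X`, with the explicit constant, which takes into account the residue class. The starting point
`a` and the coefficient `b` may depend on `q` in an arbitrary way.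

Proof. The polynomials in `n` have the leading coefficient `q²`, their middle coefficients are arbitrary. The family has
nearly minimal additive energy (`Run7.h536.CE1` to `CE4`, new); the circle method for correlations of primes along families of
nearly minimal energy (starting files, `TH872.Sq`, `R459.fam_near_fin`) and a maximal choice of the bad data
(`CE5`, `CE6`) give the result, the main term is computed with the fundamental lemma of the sieve (`LD3`).
-/

namespace Pool.Agent.Results.MP_0b748d_nt.AllClassesLargeModuli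

open Finset Polynomial

/-- The number `ρ(p)` of the residues `n` modulo `p` with `G(n) ≡ 0`. -/
noncomputable def rho (G : ℤ[X]) (p : ℕ) : ℕ := ((range p).filter (fun n : ℕ => (p : ℤ) ∣ G.eval (n : ℤ))).card

/-- The singular product `∏_{p ≤ z} (1 - 1/p)⁻¹ (1 - ρ(p)/p)`. For `G = n² - 2` the factor of an odd prime `p` is
`1 - (2/p)/(p - 1)`. -/
noncomputable def singular (G : ℤ[X]) (z : ℕ) : ℝ :=
  ∏ p ∈ (Icc 1 z).filter Nat.Prime, ((1 - 1 / (p : ℝ))⁻¹ * (1 - (rho G p : ℝ) / p))

/-- Functions between `log` on the primes and the von Mangoldt function. -/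
def PrimeLike (L : ℕ → ℝ) : Prop :=
  ∀ n, (if n.Prime then Real.log n else 0) ≤ L n ∧ L n ≤ ArithmeticFunction.vonMangoldt n

/-- The polynomial `m² + b m - c` in `n`, where `m = q n + a`. -/
noncomputable def along (q : ℕ) (a b c : ℤ) : ℤ[X] := (X ^ 2 + C b * X - C c).comp (C (q : ℤ) * X + C a)

open Classical in
/-- The number of the integers `c`, `|c| ≤ K`, such that for some `M ≤ X` the sum of `L(|m² + b m - c|)` over `m = q n + a`,
`1 ≤ n ≤ M`, differs from `M ∏_{p ≤ z} (1 - 1/p)⁻¹ (1 - ρ(p)/p)` by more than `δ`; here `ρ(p)` is the number of the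
residues `n` modulo `p` for which `p` divides `m² + b m - c`. -/
noncomputable def exceptions (K X z : ℕ) (L : ℕ → ℝ) (δ : ℝ) (q : ℕ) (a b : ℤ) : ℕ :=
  ((Icc (-(K : ℤ)) K).filter (fun c : ℤ => ∃ M : ℕ, M ≤ X ∧
    δ < |∑ n ∈ Icc 1 M, L ((along q a b c).eval (n : ℤ)).natAbs - M * singular (along q a b c) z|)).card

open Classical in
/-- Fix `r`, `B`, `C`, `U`. There is `B₀` such that for all `E` and all large `X`: let `Q ≤ X ^ r`, `X ≤ Q ^ r`, let `A` be
ANY set of positive integers up to `Q` with at least `Q / (log X) ^ C` elements, `z` an integer between `(log X) ^ B₀`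
and `(log X) ^ E`, and `L` a function between `log` on the primes and the von Mangoldt function. Then for all but at
most `|A| / (log X) ^ U` of the moduli `q ∈ A`: for ALL integers `a` and `b` with `|a|, |b| ≤ B Q X`, for all but at most
`(Q X)² / (log X) ^ U` of the integers `c` with `|c| ≤ B (Q X)²`: for all `M ≤ X` the sum of `L(|m² + b m - c|)` over the
`m = q n + a`, `1 ≤ n ≤ M`, is `M ∏_{p ≤ z} (1 - 1/p)⁻¹ (1 - ρ(p)/p)` up to `X / (log X) ^ U`. -/
theorem result (r B C U : ℕ) (hr : 1 ≤ r) (hB : 1 ≤ B) :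
    ∃ B₀ : ℕ, ∀ E : ℕ, ∃ x₀ : ℕ, ∀ X : ℕ, x₀ ≤ X → ∀ Q : ℕ, Q ≤ X ^ r → X ≤ Q ^ r →
    ∀ A : Finset ℕ, A ⊆ Icc 1 Q → (Q : ℝ) ≤ Real.log X ^ C * A.card →
    ∀ z : ℕ, Real.log X ^ B₀ ≤ z → (z : ℝ) ≤ Real.log X ^ E → ∀ L : ℕ → ℝ, PrimeLike L →
    ((A.filter (fun q : ℕ => ∃ a b : ℤ, |a| ≤ B * (Q * X) ∧ |b| ≤ B * (Q * X) ∧
      (((Q * X) ^ 2 : ℕ) : ℝ) / Real.log X ^ U <
        exceptions (B * (Q * X) ^ 2) X z L (X / Real.log X ^ U) q a b)).card : ℝ) ≤
      A.card / Real.log X ^ U := by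
  obtain ⟨B0, h0⟩ := Pool.Agent.Run7.h536.CE.ap_one 2 le_rfl r (2 * B ^ 2 + 8 * B + 16) C U hr (by omega)
  refine ⟨B0, fun E => ?_⟩
  obtain ⟨x0, h1⟩ := h0 E
  refine ⟨x0, fun X hX Q hQ1 hQ2 A hA hAQ z hz1 hz2 L hL => ?_⟩
  refine le_trans (Nat.cast_le.2 (card_le_card ?_)) (h1 X hX Q hQ1 hQ2 A hA hAQ 1 one_ne_zero z hz1 hz2 L hL)
  intro q hq
  rw [mem_filter] at hq ⊢
  obtain ⟨hqA, a, b, ha, hb, hex⟩ := hq
  have hq1 := mem_Icc.1 (hA hqA)
  have hdeg : (Polynomial.X ^ 2 + Polynomial.C b * Polynomial.X : ℤ[X]).natDegree ≤ 2 := by compute_degree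
  refine ⟨hqA, Polynomial.X ^ 2 + Polynomial.C b * Polynomial.X, a, hdeg, ?_, ?_, ?_⟩
  · rw [coeff_add, coeff_C_mul, coeff_X_pow, coeff_X, if_pos rfl, if_neg (by norm_num)]
    ring
  · intro m hm
    rw [mem_range] at hm
    have hm' : (m : ℤ) ≤ 2 * X := by exact_mod_cast hm.le
    have hm0 : (0 : ℤ) ≤ m := Int.natCast_nonneg m
    have hX0 : (0 : ℤ) ≤ X := Int.natCast_nonneg X
    have hq2 : (q : ℤ) ≤ Q := by exact_mod_cast hq1.2
    have hq0 : (0 : ℤ) ≤ q := Int.natCast_nonneg q
    have hQ0 : (0 : ℤ) ≤ Q := Int.natCast_nonneg Q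
    have hB0 : (0 : ℤ) ≤ B := Int.natCast_nonneg B
    simp only [eval_add, eval_mul, eval_C, eval_pow, eval_X]
    obtain ⟨N, hN⟩ : ∃ N : ℤ, N = Q * X := ⟨_, rfl⟩
    rw [← hN] at ha hb
    have hN0 : 0 ≤ N := by rw [hN]; positivity
    have e1 : |(q : ℤ) * (m : ℤ) + a| ≤ (B + 2) * N := by
      have e3 : |(q : ℤ) * (m : ℤ)| ≤ 2 * N := by
        rw [abs_of_nonneg (mul_nonneg hq0 hm0), hN]
        calc (q : ℤ) * m ≤ Q * (2 * X) := mul_le_mul hq2 hm' hm0 hQ0
          _ = _ := by ring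
      calc |(q : ℤ) * (m : ℤ) + a| ≤ |(q : ℤ) * (m : ℤ)| + |a| := abs_add_le _ _
        _ ≤ 2 * N + B * N := add_le_add e3 ha
        _ = _ := by ring
    have e2 : |((q : ℤ) * (m : ℤ) + a) ^ 2 + b * ((q : ℤ) * (m : ℤ) + a)| ≤ ((B + 2) * N) ^ 2 + (B * N) * ((B + 2) * N) := by
      refine (abs_add_le _ _).trans (add_le_add ?_ ?_)
      · rw [abs_pow]
        exact pow_le_pow_left₀ (abs_nonneg _) e1 2
      · rw [abs_mul]
        exact mul_le_mul hb e1 (abs_nonneg _) (mul_nonneg hB0 hN0)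
    refine e2.trans ?_
    push_cast
    rw [← hN]
    nlinarith [mul_nonneg hB0 (pow_nonneg hN0 2), pow_nonneg hN0 2]
  · refine lt_of_lt_of_le hex (Nat.cast_le.2 ?_)
    have hK : (0 : ℤ) ≤ (B : ℤ) * ((((Q * X) ^ 2 : ℕ)) : ℤ) := mul_nonneg (Int.natCast_nonneg B) (Int.natCast_nonneg _)
    unfold exceptions
    rw [← card_image_of_injective _ (neg_injective : Function.Injective (fun c : ℤ => -c))]
    apply card_le_card
    intro c hc
    rw [mem_image] at hc
    obtain ⟨c', hc', rfl⟩ := hc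
    rw [mem_filter, mem_Icc] at hc' ⊢
    obtain ⟨⟨hc1, hc2⟩, M, hM1, hM2⟩ := hc'
    have hN2 : (0 : ℤ) ≤ (((Q * X) ^ 2 : ℕ) : ℤ) := Int.natCast_nonneg _
    have hB0 : (0 : ℤ) ≤ B := Int.natCast_nonneg B
    have hbig : ((B * (Q * X) ^ 2 : ℕ) : ℤ) ≤ ((2 * B ^ 2 + 8 * B + 16 : ℕ) : ℤ) * (((Q * X) ^ 2 : ℕ) : ℤ) := by
      rw [Nat.cast_mul]
      apply mul_le_mul_of_nonneg_right _ hN2
      have : B ≤ 2 * B ^ 2 + 8 * B + 16 := by nlinarith
      exact_mod_cast this
    refine ⟨⟨by linarith, by linarith⟩, M, hM1, ?_⟩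
    have epoly : (Polynomial.X ^ 2 + Polynomial.C b * Polynomial.X + Polynomial.C (-c')).comp
        (Polynomial.C (q : ℤ) * Polynomial.X + Polynomial.C a) = along q a b c' := by
      unfold along
      rw [map_neg, sub_eq_add_neg]
    rw [epoly]
    have esum : ∀ n : ℕ, (Polynomial.X ^ 2 + Polynomial.C b * Polynomial.X : ℤ[X]).eval ((q : ℤ) * (n : ℤ) + a) + -c' =
        (along q a b c').eval (n : ℤ) := by
      intro n
      unfold along
      simp only [eval_comp, eval_add, eval_sub, eval_mul, eval_C, eval_pow, eval_X]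
      ring
    simp only [esum]
    exact hM2

end Pool.Agent.Results.MP_0b748d_nt.AllClassesLargeModuli
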