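import Pool.Agent.Run7.h285.S.One

/-!
# Primes `|n² + a|` in windows of all lengths from `T log X` on, for almost all pairs (constant term, window)

For almost all pairs `(a, m)`, `|a| ≤ X`, `m₀ < m ≤ m₀ + M`, the formula of Hardy and Littlewood, with the true
constant `h_a`, holds for the primes `|n² + a|`, `m < n ≤ m + H`, for ALL `H` with `T log X ≤ H ≤ √X (log X)^C` at once, with a
constant `T` which depends on the precision `ε` alone: this is the true scale, since a window of length `c log X` contains no
prime for almost all pairs, if `c` is small. The windows need not be near the square root of `-a`, and it is sufficient that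
`m` runs over an interval of length `X ^ (1 / 3) (log X) ^ B`.

Method. The second moment over the pairs: for `i < j` the values at `m + i` and `m + j` differ by
`(j - i) (2 m + i + j)`, so the off-diagonal terms are sums of correlations with shifts in a short arithmetic progression;
for the primes minus their sieve model they are negligible by the law of the project MK (helper794 and team), for the difference
of two sieve models by the fundamental lemma. The second moment at the length `H` is `O(log X / H)` relative to the square of the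
mean, so the exceptional sets at the scales `T (1 + ε / 10)^j log X` have a bounded sum; the two sieve models need to be
compared only up to a power of `log X`, that is at `O(log log X)` scales; the counting functions are monotone in `H`.
-/

set_option autoImplicit false

namespace Pool.Agent.Results.MP_0b748d_nt.AllScalesForPairs

open Finset Filter Topology

/-- the product over the odd primes `w ≤ z` of `1 - (-a | w) / (w - 1)` -/
noncomputable def hcut (a : ℤ) (z : ℕ) : ℝ :=
  ∏ w ∈ (Finset.range (z + 1)).filter (fun w => Nat.Prime w ∧ w ≠ 2),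
    (1 - (jacobiSym (-a) w : ℝ) / ((w : ℝ) - 1))

/-- the number of `n` with `m < n ≤ m + H` such that `|n² + a|` is a prime -/
def P (a : ℤ) (m H : ℕ) : ℕ := #((Ioc m (m + H)).filter (fun n : ℕ => Nat.Prime ((n : ℤ) ^ 2 + a).natAbs))

/-- the sum of `1 / log |n² + a|` over `m < n ≤ m + H` (the terms with `|n² + a| ≤ 1` are `0` in Lean) -/
noncomputable def W (a : ℤ) (m H : ℕ) : ℝ := ∑ n ∈ Ioc m (m + H), 1 / Real.log (((n : ℤ) ^ 2 + a).natAbs : ℝ)

/-- **Primes `|n² + a|` at all scales from the optimal one on, almost everywhere.** For every `ε > 0` there is `T > 0` such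
that for every `C` there are `B` and `X₀` with the following property for all `X ≥ X₀`. Let `m₀`, `M` be such that
`X^(1/3) (log X)^B ≤ M` and `m₀ + M ≤ √X (log X)^C`. All but at most `ε X M` of the pairs `(a, m)`
with `|a| ≤ X`, `m₀ < m ≤ m₀ + M` are such that `-a` is not a square, the product `h_a` converges to a number
`h > 0`, and for ALL `H` with `T log X ≤ H ≤ √X (log X)^C` the number of primes `|n² + a|` with `m < n ≤ m + H` is
`h ∑_{m < n ≤ m + H} 1 / log |n² + a|` up to a relative error `ε`. -/
theorem result : ∀ ε : ℝ, 0 < ε → ∃ T : ℝ, 0 < T ∧ ∀ C : ℕ, ∃ B X₀ : ℕ, ∀ X : ℕ, X₀ ≤ X → ∀ m₀ M : ℕ,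
    (X : ℝ) ^ (1 / 3 : ℝ) * Real.log X ^ B ≤ M → (m₀ : ℝ) + M ≤ √X * Real.log X ^ C →
    ∃ Bad ⊆ Icc (-(X : ℤ)) X ×ˢ Ioc m₀ (m₀ + M), (#Bad : ℝ) ≤ ε * (X * M) ∧
      ∀ a ∈ Icc (-(X : ℤ)) X, ∀ m ∈ Ioc m₀ (m₀ + M), (a, m) ∉ Bad →
        ¬ IsSquare (-a) ∧ ∃ h : ℝ, 0 < h ∧ Tendsto (fun z : ℕ => hcut a z) atTop (𝓝 h) ∧
          ∀ H : ℕ, T * Real.log X ≤ H → (H : ℝ) ≤ √X * Real.log X ^ C →
            |(P a m H : ℝ) - h * W a m H| ≤ ε * (h * W a m H) := by
  intro ε hε
  obtain ⟨T, hT, h1⟩ := Run7.h285.S.eem_all ε hε
  refine ⟨T, hT, fun C => ?_⟩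
  obtain ⟨B, X₀, h2⟩ := h1 C
  refine ⟨B, X₀, fun X hX m₀ M hM hW => ?_⟩
  obtain ⟨Bad, hB1, hB2, hB3⟩ := h2 X hX m₀ M hM hW
  exact ⟨Bad, hB1, hB2, fun a ha m hm hb => hB3 a ha m hm hb⟩

end Pool.Agent.Results.MP_0b748d_nt.AllScalesForPairs
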