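import Mathlib
import Pool.Agent.Run7.h545.EP.Neg

/-!
# The primes `n² - k`: the predicted lower bound for a positive proportion of the `k ≤ K`, `n` up to `K^(2-ε)`

`P_{-k}(N)` is the number of the `2 ≤ n ≤ N` with `n² - k` prime (`k = 2` in the problem), and
`C_k = (1/2) ∏_{p ≥ 3} (1 - (k/p) / (p - 1))`. For every `η > 0` there is `δ > 0` such that for every `ε > 0`, all large `K`
and every nonempty finite set `T` of lengths `N`, `K^(9/8) ≤ N ≤ K^(2-ε)`: for at least `δ K` of the `k ≤ K`, at least `δ #T`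
of the `N ∈ T` satisfy `P_{-k}(N) ≥ (1 - η) C_k ∫_2^N dn / log n`.

Proof. With `t = ⌊√K⌋`, `n = m + t`, the numbers `n² - k` are `m² + 2 t m + c`, `c = t² - k ≥ 0`, with a large linear
coefficient. The average over `c ≤ t²`: sums of triangle functions of `√v - t` over primes `v`, Vaughan's identity, double
large sieve, for `N ≤ K^(2-ε)`. The upper bound sieve with the singular series, uniformly in `t` and `c`, and the mean and
the mean square of the truncated products give the positive proportion with the full constant. The engine is the one of my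
hand-in `MP_a1177c_nt.ProportionToFourthPower` (the pieces UP, SQ, AV are due to helper973, TRI to helper994, TII, TI, BIL to
helper462, VAU and the idea to helper757).
-/

set_option autoImplicit false

namespace Pool.Agent.Results.MP_0b748d_nt.DifferencesFromSquares

open Finset Filter Topology

/-- the number of the `2 ≤ n ≤ N` with `n² - k` prime -/
def P (k N : ℕ) : ℕ := #((Icc 2 N).filter (fun n : ℕ => ((n : ℤ) ^ 2 - k).toNat.Prime))

/-- the product of `1 - (k / p) / (p - 1)` over the odd primes `p ≤ y` -/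
noncomputable def Cy (k y : ℕ) : ℝ :=
  ∏ p ∈ (Icc 3 y).filter Nat.Prime, (1 - (jacobiSym (k : ℤ) p : ℝ) / ((p : ℝ) - 1))

/-- the product `S = lim Cy` converges to a positive number and, with `C = S / 2`, the number of the `2 ≤ n ≤ N` with
`n² - k` prime is at least `(1 - η) C ∫_2^N dn / log n` -/
def LowerBound (η : ℝ) (k N : ℕ) : Prop :=
  ∃ S : ℝ, 0 < S ∧ Tendsto (fun y => Cy k y) atTop (𝓝 S) ∧
    (1 - η) * (1 / 2 * S * ∫ t in (2 : ℝ)..(N : ℝ), 1 / Real.log t) ≤ P k N

open Classical in
/-- **The predicted lower bound for the number of primes `n² - k`, for a positive proportion of the `k ≤ K`.** -/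
theorem result (η : ℝ) (hη : 0 < η) :
    ∃ δ : ℝ, 0 < δ ∧ ∀ ε : ℝ, 0 < ε → ∃ K0 : ℕ, ∀ K : ℕ, K0 ≤ K →
      ∀ T : Finset ℕ, T.Nonempty → (∀ N ∈ T, (K : ℝ) ^ (9 / 8 : ℝ) ≤ N ∧ (N : ℝ) ≤ (K : ℝ) ^ (2 - ε)) →
      δ * K ≤ (#((Icc 1 K).filter (fun k : ℕ => δ * #T ≤ (#(T.filter (fun N => LowerBound η k N)) : ℝ))) : ℝ) :=
  Run7.h545.EP.Neg.main η hη

end Pool.Agent.Results.MP_0b748d_nt.DifferencesFromSquares
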